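import Mathlib

/-! Signed-digit expansions `y = ∑ w i * x ^ i`, `w i = ± 1`. -/

namespace Pool.Agent.KExp

open Finset

def Sg (w : ℕ → ℤ) : Prop := ∀ i, w i = 1 ∨ w i = -1

noncomputable def T (x : ℝ) (w : ℕ → ℤ) : ℝ := ∑' i, (w i : ℝ) * x ^ i

def Ex (x y : ℝ) : Set (ℕ → ℤ) := {w | Sg w ∧ T x w = y}

def Uq (x y : ℝ) : Prop := (Ex x y).Subsingleton

def cons (s : ℤ) (w : ℕ → ℤ) : ℕ → ℤ
  | 0 => s
  | i + 1 => w i

@[simp] lemma cons_zero (s : ℤ) (w : ℕ → ℤ) : cons s w 0 = s := rfl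
@[simp] lemma cons_succ (s : ℤ) (w : ℕ → ℤ) (i : ℕ) : cons s w (i + 1) = w i := rfl

noncomputable def kap (x : ℝ) : ℝ := (2 * x - 1) / (1 - x)

lemma Sg.abs_le {w : ℕ → ℤ} (h : Sg w) (i : ℕ) : |w i| ≤ 1 := by
  rcases h i with h | h <;> simp [h]

lemma Sg.shift {w : ℕ → ℤ} (h : Sg w) (j : ℕ) : Sg (fun i => w (i + j)) := fun _ => h _

lemma Sg.neg {w : ℕ → ℤ} (h : Sg w) : Sg (fun i => - w i) := fun i => by
  rcases h i with h | h <;> simp [h]

lemma Sg.cons {w : ℕ → ℤ} (h : Sg w) {s : ℤ} (hs : s = 1 ∨ s = -1) : Sg (cons s w) := fun i => by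
  cases i with
  | zero => simpa using hs
  | succ i => simpa using h i

lemma summable_bdd {x : ℝ} (h0 : 0 ≤ x) (h1 : x < 1) {w : ℕ → ℤ} {C : ℤ} (h : ∀ i, |w i| ≤ C) :
    Summable (fun i => (w i : ℝ) * x ^ i) := by
  refine Summable.of_norm_bounded ((summable_geometric_of_lt_one h0 h1).mul_left (C : ℝ)) ?_
  intro i
  rw [Real.norm_eq_abs, abs_mul, abs_of_nonneg (pow_nonneg h0 i)]
  have : |(w i : ℝ)| ≤ C := by exact_mod_cast h i
  exact mul_le_mul_of_nonneg_right this (pow_nonneg h0 i)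

lemma abs_T_le {x : ℝ} (h0 : 0 ≤ x) (h1 : x < 1) {w : ℕ → ℤ} {C : ℤ} (h : ∀ i, |w i| ≤ C) :
    |T x w| ≤ C / (1 - x) := by
  have hs : HasSum (fun i => (C : ℝ) * x ^ i) (C / (1 - x)) := by
    simpa [div_eq_mul_inv] using (hasSum_geometric_of_lt_one h0 h1).mul_left (C : ℝ)
  have := tsum_of_norm_bounded (f := fun i => (w i : ℝ) * x ^ i) hs (fun i => by
    rw [Real.norm_eq_abs, abs_mul, abs_of_nonneg (pow_nonneg h0 i)]
    have : |(w i : ℝ)| ≤ C := by exact_mod_cast h i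
    exact mul_le_mul_of_nonneg_right this (pow_nonneg h0 i))
  simpa [T] using this

lemma T_step {x : ℝ} (h0 : 0 ≤ x) (h1 : x < 1) {w : ℕ → ℤ} {C : ℤ} (h : ∀ i, |w i| ≤ C) :
    T x w = w 0 + x * T x (fun i => w (i + 1)) := by
  unfold T
  rw [(summable_bdd h0 h1 h).tsum_eq_zero_add, ← tsum_mul_left]
  simp only [pow_zero, mul_one]
  congr 1
  refine tsum_congr fun i => ?_
  ring

lemma T_split {x : ℝ} (h0 : 0 ≤ x) (h1 : x < 1) {w : ℕ → ℤ} {C : ℤ} (h : ∀ i, |w i| ≤ C) (L : ℕ) :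
    T x w = ∑ i ∈ range L, (w i : ℝ) * x ^ i + x ^ L * T x (fun i => w (i + L)) := by
  unfold T
  rw [← (summable_bdd h0 h1 h).sum_add_tsum_nat_add L, ← tsum_mul_left]
  congr 1
  refine tsum_congr fun i => ?_
  ring

lemma T_cons {x : ℝ} (h0 : 0 ≤ x) (h1 : x < 1) {w : ℕ → ℤ} (h : Sg w) {s : ℤ}
    (hs : s = 1 ∨ s = -1) : T x (cons s w) = s + x * T x w := by
  rw [T_step h0 h1 (h.cons hs).abs_le]; rfl

lemma T_neg (x : ℝ) (w : ℕ → ℤ) : T x (fun i => - w i) = - T x w := by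
  unfold T; rw [← tsum_neg]; refine tsum_congr fun i => ?_; push_cast; ring

lemma T_add {x : ℝ} (h0 : 0 ≤ x) (h1 : x < 1) {w v : ℕ → ℤ} {C D : ℤ} (h : ∀ i, |w i| ≤ C)
    (h' : ∀ i, |v i| ≤ D) : T x (fun i => w i + v i) = T x w + T x v := by
  unfold T
  rw [← (summable_bdd h0 h1 h).tsum_add (summable_bdd h0 h1 h')]
  refine tsum_congr fun i => ?_; push_cast; ring

lemma T_sub {x : ℝ} (h0 : 0 ≤ x) (h1 : x < 1) {w v : ℕ → ℤ} {C D : ℤ} (h : ∀ i, |w i| ≤ C)
    (h' : ∀ i, |v i| ≤ D) : T x (fun i => w i - v i) = T x w - T x v := by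
  unfold T
  rw [← (summable_bdd h0 h1 h).tsum_sub (summable_bdd h0 h1 h')]
  refine tsum_congr fun i => ?_; push_cast; ring

lemma T_const {x : ℝ} (h0 : 0 ≤ x) (h1 : x < 1) (s : ℤ) : T x (fun _ => s) = s / (1 - x) := by
  unfold T
  rw [tsum_mul_left, tsum_geometric_of_lt_one h0 h1, div_eq_mul_inv]

lemma T_zero_head {x : ℝ} (h0 : 0 ≤ x) (h1 : x < 1) {w : ℕ → ℤ} {C : ℤ} (h : ∀ i, |w i| ≤ C)
    {L : ℕ} (hz : ∀ i < L, w i = 0) : T x w = x ^ L * T x (fun i => w (i + L)) := by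
  rw [T_split h0 h1 h L, Finset.sum_eq_zero, zero_add]
  intro i hi
  simp [hz i (mem_range.1 hi)]

/-- first difference decides the order when `x < 1/2` -/
lemma T_lt_of_first {x : ℝ} (h0 : 0 < x) (h1 : x < 1 / 2) {w v : ℕ → ℤ} (hw : Sg w) (hv : Sg v)
    {p : ℕ} (hp : ∀ i < p, w i = v i) (h1' : w p = -1) (h2 : v p = 1) : T x w < T x v := by
  have hx1 : x < 1 := by linarith
  have hb : ∀ i, |v i - w i| ≤ 2 := fun i => by
    rcases hw i with a | a <;> rcases hv i with b | b <;> simp [a, b]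
  have e : T x v - T x w = T x (fun i => v i - w i) := (T_sub h0.le hx1 hv.abs_le hw.abs_le).symm
  have e2 := T_zero_head h0.le hx1 hb (L := p) (fun i hi => by simp [hp i hi])
  have e3 := T_step h0.le hx1 (w := fun i => v (i + p) - w (i + p)) (C := 2) (fun i => hb _)
  have e4 := abs_T_le h0.le hx1 (w := fun i => v (i + 1 + p) - w (i + 1 + p)) (C := 2)
    (fun i => hb _)
  simp only [zero_add, h1', h2] at e3
  have e5 : (2 : ℝ) / (1 - x) * x < 2 := by
    rw [div_mul_eq_mul_div, div_lt_iff₀ (by linarith)]; linarith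
  have e6 := (abs_le.1 e4).1
  have : 0 < T x (fun i => v (i + p) - w (i + p)) := by
    rw [e3]; push_cast at e6 ⊢; nlinarith
  have := mul_pos (pow_pos h0 p) this
  linarith

/-- uniqueness of expansions with even digits of size at most four when `x < 1/3` -/
lemma eq_zero_of_T {x : ℝ} (h0 : 0 < x) (h1 : x < 1 / 3) {d : ℕ → ℤ} (hb : ∀ i, |d i| ≤ 4)
    (he : ∀ i, d i = 0 ∨ 2 ≤ |d i|) (hT : T x d = 0) : ∀ i, d i = 0 := by
  have hx1 : x < 1 := by linarith
  intro p
  induction p using Nat.strong_induction_on with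
  | _ p ih =>
    have e2 := T_zero_head h0.le hx1 hb (L := p) ih
    have e3 := T_step h0.le hx1 (w := fun i => d (i + p)) (C := 4) (fun i => hb _)
    have e4 := abs_T_le h0.le hx1 (w := fun i => d (i + 1 + p)) (C := 4) (fun i => hb _)
    rw [hT] at e2
    have e5 : T x (fun i => d (i + p)) = 0 := by
      rcases mul_eq_zero.1 e2.symm with h | h
      · exact absurd h (pow_pos h0 p).ne'
      · exact h
    rcases he p with h | h
    · exact h
    · exfalso
      have h' : (2 : ℝ) ≤ |(d p : ℝ)| := by exact_mod_cast h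
      have e6 : (4 : ℝ) / (1 - x) * x < 2 := by
        rw [div_mul_eq_mul_div, div_lt_iff₀ (by linarith)]; linarith
      simp only [zero_add] at e3
      have e7 : (d p : ℝ) = - (x * T x (fun i => d (i + 1 + p))) := by linarith
      rw [e7, abs_neg, abs_mul, abs_of_pos h0] at h'
      push_cast at e4
      nlinarith

lemma kap_add_one {x : ℝ} (h1 : x < 1) : kap x + 1 = x * (1 / (1 - x)) := by
  unfold kap; have : 1 - x ≠ 0 := by linarith
  field_simp; ring

lemma kap_mul {x : ℝ} (h1 : x < 1) : (1 - x) * kap x = 2 * x - 1 := by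
  unfold kap; have : 1 - x ≠ 0 := by linarith
  field_simp

lemma kap_mono {a b : ℝ} (hab : a ≤ b) (h1 : b < 1) : kap a ≤ kap b := by
  unfold kap; rw [div_le_div_iff₀ (by linarith) (by linarith)]; nlinarith

lemma kap_strict {a b : ℝ} (hab : a < b) (h1 : b < 1) : kap a < kap b := by
  unfold kap; rw [div_lt_div_iff₀ (by linarith) (by linarith)]; nlinarith

lemma exists_Ex {x : ℝ} (h0 : 1 / 2 ≤ x) (h1 : x < 1) {y : ℝ} (hy : |y| ≤ 1 / (1 - x)) :
    (Ex x y).Nonempty := by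
  have hx0 : 0 < x := by linarith
  have h1x : 0 < 1 - x := by linarith
  let sg : ℝ → ℤ := fun y => if 0 ≤ y then 1 else -1
  let f : ℝ → ℝ := fun y => (y - sg y) / x
  have hR : 1 / x ≤ 1 / (1 - x) := one_div_le_one_div_of_le h1x (by linarith)
  have hR2 : (1 / (1 - x) - 1) / x = 1 / (1 - x) := by field_simp; ring
  have hf : ∀ y, |y| ≤ 1 / (1 - x) → |f y| ≤ 1 / (1 - x) := by
    intro y hy
    obtain ⟨a, b⟩ := abs_le.1 hy
    simp only [f, sg]
    split_ifs with h
    · push_cast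
      refine abs_le.2 ⟨?_, ?_⟩
      · have : -(1 / x) ≤ (y - 1) / x := by
          rw [← neg_div]; exact div_le_div_of_nonneg_right (by linarith) hx0.le
        linarith
      · rw [← hR2]; exact div_le_div_of_nonneg_right (by linarith) hx0.le
    · push_cast
      push Not at h
      refine abs_le.2 ⟨?_, ?_⟩
      · rw [← hR2, ← neg_div]; exact div_le_div_of_nonneg_right (by linarith) hx0.le
      · have : (y - -1) / x ≤ 1 / x := div_le_div_of_nonneg_right (by linarith) hx0.le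
        linarith
  have hb : ∀ n, |f^[n] y| ≤ 1 / (1 - x) := by
    intro n
    induction n with
    | zero => simpa using hy
    | succ n ih => rw [Function.iterate_succ_apply']; exact hf _ ih
  let w : ℕ → ℤ := fun i => sg (f^[i] y)
  have hw : Sg w := fun i => by
    simp only [w, sg]; split_ifs <;> simp
  have hs : ∀ L, y = ∑ i ∈ range L, (w i : ℝ) * x ^ i + x ^ L * f^[L] y := by
    intro L
    induction L with
    | zero => simp
    | succ L ih =>
      rw [sum_range_succ, Function.iterate_succ_apply']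
      have : x ^ (L + 1) * f (f^[L] y) = x ^ L * (f^[L] y - w L) := by
        simp only [f, w]; field_simp; ring
      rw [this]; linarith
  refine ⟨w, hw, ?_⟩
  have t1 := (summable_bdd hx0.le h1 hw.abs_le).hasSum.tendsto_sum_nat
  have t2 : Filter.Tendsto (fun L => x ^ L * f^[L] y) Filter.atTop (nhds 0) := by
    refine squeeze_zero_norm (a := fun L => x ^ L * (1 / (1 - x))) (fun L => ?_) ?_
    · rw [Real.norm_eq_abs, abs_mul, abs_of_pos (pow_pos hx0 L)]
      exact mul_le_mul_of_nonneg_left (hb L) (pow_pos hx0 L).le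
    · simpa using (tendsto_pow_atTop_nhds_zero_of_lt_one hx0.le h1).mul_const (1 / (1 - x))
  have t3 := t1.add t2
  have t4 : Filter.Tendsto (fun L => ∑ i ∈ range L, (w i : ℝ) * x ^ i + x ^ L * f^[L] y)
      Filter.atTop (nhds y) := by
    refine tendsto_const_nhds.congr fun L => hs L
  have := tendsto_nhds_unique t3 t4
  simpa [T] using this

lemma cons_mem {x : ℝ} (h0 : 0 < x) (h1 : x < 1) {s : ℤ} (hs : s = 1 ∨ s = -1) {y y' : ℝ}
    (hy : y = s + x * y') {w : ℕ → ℤ} (hw : w ∈ Ex x y') : cons s w ∈ Ex x y :=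
  ⟨hw.1.cons hs, by rw [T_cons h0.le h1 hw.1 hs, hw.2, hy]⟩

lemma cons_inj (s : ℤ) : Function.Injective (cons s) := by
  intro w v h
  funext i
  have := congrFun h (i + 1)
  simpa using this

lemma tail_mem {x : ℝ} (h0 : 0 < x) (h1 : x < 1) {y y' : ℝ} {w : ℕ → ℤ} (hw : w ∈ Ex x y)
    (hy : y = w 0 + x * y') : (fun i => w (i + 1)) ∈ Ex x y' := by
  refine ⟨hw.1.shift 1, ?_⟩
  have := T_step h0.le h1 hw.1.abs_le
  rw [hw.2] at this
  have h2 : x * T x (fun i => w (i + 1)) = x * y' := by linarith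
  exact mul_left_cancel₀ h0.ne' h2

lemma cons_tail (w : ℕ → ℤ) : cons (w 0) (fun i => w (i + 1)) = w := by
  funext i; cases i <;> rfl

/-- one digit step -/
def St (x y y' : ℝ) : Prop := ∃ s : ℤ, (s = 1 ∨ s = -1) ∧ y = s + x * y'

/-- reachability along a finite word -/
def Rch (x : ℝ) : ℝ → ℝ → Prop := Relation.ReflTransGen (St x)

lemma Rch.refl (x y : ℝ) : Rch x y y := Relation.ReflTransGen.refl

lemma Rch.trans {x a b c : ℝ} (h : Rch x a b) (h' : Rch x b c) : Rch x a c :=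
  Relation.ReflTransGen.trans h h'

lemma Rch.one {x y y' : ℝ} {s : ℤ} (hs : s = 1 ∨ s = -1) (hy : y = s + x * y') : Rch x y y' :=
  Relation.ReflTransGen.single ⟨s, hs, hy⟩

lemma Rch.encard_le {x : ℝ} (h0 : 0 < x) (h1 : x < 1) {y y' : ℝ} (h : Rch x y y') :
    (Ex x y').encard ≤ (Ex x y).encard := by
  induction h with
  | refl => exact le_rfl
  | tail _ hbc ih =>
    obtain ⟨s, hs, hy⟩ := hbc
    refine le_trans ?_ ih
    rw [← (cons_inj s).encard_image]
    refine Set.encard_le_encard ?_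
    rintro _ ⟨w, hw, rfl⟩
    exact cons_mem h0 h1 hs hy hw

lemma Uq_iff {x y : ℝ} : Uq x y ↔ (Ex x y).encard ≤ 1 := Set.encard_le_one_iff_subsingleton.symm

lemma Rch.uq {x : ℝ} (h0 : 0 < x) (h1 : x < 1) {y y' : ℝ} (h : Rch x y y') (hu : Uq x y) :
    Uq x y' := Uq_iff.2 ((h.encard_le h0 h1).trans (Uq_iff.1 hu))

lemma Uq.neg {x y : ℝ} (h : Uq x y) : Uq x (-y) := by
  intro w hw v hv
  have h1 : (fun i => - w i) ∈ Ex x y := ⟨hw.1.neg, by rw [T_neg, hw.2, neg_neg]⟩
  have h2 : (fun i => - v i) ∈ Ex x y := ⟨hv.1.neg, by rw [T_neg, hv.2, neg_neg]⟩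
  have := h h1 h2
  funext i
  have := congrFun this i
  simpa using this

/-- the counting recursion -/
lemma encard_split {x : ℝ} (h0 : 0 < x) (h1 : x < 1) (y : ℝ) :
    (Ex x y).encard = (Ex x ((y - 1) / x)).encard + (Ex x ((y + 1) / x)).encard := by
  have e1 : y = ((1 : ℤ) : ℝ) + x * ((y - 1) / x) := by push_cast; field_simp; ring
  have e2 : y = ((-1 : ℤ) : ℝ) + x * ((y + 1) / x) := by push_cast; field_simp; ring
  rw [← (cons_inj 1).encard_image (Ex x ((y - 1) / x)),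
    ← (cons_inj (-1)).encard_image (Ex x ((y + 1) / x)), ← Set.encard_union_eq]
  · congr 1
    ext w
    constructor
    · intro hw
      rcases hw.1 0 with h | h
      · left; exact ⟨_, tail_mem h0 h1 hw (by rw [h]; exact e1), by rw [← h, cons_tail]⟩
      · right; exact ⟨_, tail_mem h0 h1 hw (by rw [h]; exact e2), by rw [← h, cons_tail]⟩
    · rintro (⟨v, hv, rfl⟩ | ⟨v, hv, rfl⟩)
      · exact cons_mem h0 h1 (Or.inl rfl) e1 hv
      · exact cons_mem h0 h1 (Or.inr rfl) e2 hv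
  · rw [Set.disjoint_left]
    rintro _ ⟨v, -, rfl⟩ ⟨u, -, h⟩
    have := congrFun h 0
    simp at this

lemma hole_branch {x : ℝ} (h0 : 1 / 2 ≤ x) (h1 : x < 1) {y : ℝ} (hy : |y| ≤ kap x) :
    1 ≤ (Ex x ((y - 1) / x)).encard ∧ 1 ≤ (Ex x ((y + 1) / x)).encard := by
  have hx0 : 0 < x := by linarith
  obtain ⟨a, b⟩ := abs_le.1 hy
  have hk := kap_add_one h1
  have hR : 1 / (1 - x) = 1 + x * (1 / (1 - x)) := by
    have : 1 - x ≠ 0 := by linarith
    field_simp; ring
  have hpos : 0 < x * (1 / (1 - x)) := by have : 0 < 1 - x := by linarith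
                                          positivity
  constructor
  · refine Set.one_le_encard_iff_nonempty.2 (exists_Ex h0 h1 ?_)
    rw [abs_div, abs_of_pos hx0, div_le_iff₀ hx0]
    refine abs_le.2 ⟨by linarith, by linarith⟩
  · refine Set.one_le_encard_iff_nonempty.2 (exists_Ex h0 h1 ?_)
    rw [abs_div, abs_of_pos hx0, div_le_iff₀ hx0]
    refine abs_le.2 ⟨by linarith, by linarith⟩

lemma not_uq_hole {x : ℝ} (h0 : 1 / 2 ≤ x) (h1 : x < 1) {y : ℝ} (hy : |y| ≤ kap x) :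
    ¬ Uq x y := by
  intro hu
  have hx0 : 0 < x := by linarith
  have h := Uq_iff.1 hu
  rw [encard_split hx0 h1] at h
  obtain ⟨a, b⟩ := hole_branch h0 h1 hy
  have : (1 : ℕ∞) + 1 ≤ 1 := (add_le_add a b).trans h
  exact absurd this (by decide)

lemma Uq.out {x : ℝ} (h0 : 1 / 2 ≤ x) (h1 : x < 1) {y : ℝ} (h : Uq x y) : kap x < |y| := by
  by_contra hc
  exact not_uq_hole h0 h1 (not_lt.1 hc) h

/-- both branches at `y` are unique -/
def Term (x y : ℝ) : Prop := Uq x ((y - 1) / x) ∧ Uq x ((y + 1) / x)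

lemma Term.neg {x y : ℝ} (h : Term x y) : Term x (-y) := by
  constructor
  · have := h.2.neg; rwa [show -((y + 1) / x) = (-y - 1) / x by ring] at this
  · have := h.1.neg; rwa [show -((y - 1) / x) = (-y + 1) / x by ring] at this

lemma Term.abs {x y : ℝ} (h : Term x y) : Term x |y| := by
  rcases abs_choice y with e | e <;> rw [e]
  · exact h
  · exact h.neg

lemma term_of_le_two {x : ℝ} (h0 : 1 / 2 ≤ x) (h1 : x < 1) {y : ℝ} (hy : |y| ≤ kap x)
    (h2 : (Ex x y).encard ≤ 2) : Term x y := by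
  have hx0 : 0 < x := by linarith
  rw [encard_split hx0 h1] at h2
  obtain ⟨a, b⟩ := hole_branch h0 h1 hy
  constructor
  · rw [Uq_iff]
    have : (Ex x ((y - 1) / x)).encard + 1 ≤ 1 + 1 := (add_le_add le_rfl b).trans h2
    exact (ENat.add_le_add_iff_right (by decide)).1 this
  · rw [Uq_iff]
    have : 1 + (Ex x ((y + 1) / x)).encard ≤ 1 + 1 := (add_le_add a le_rfl).trans h2
    exact (ENat.add_le_add_iff_left (by decide)).1 this

end Pool.Agent.KExp
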