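import Pool.Agent.MP_bd9604_nt.Struct

/-! The Komornik-Loreti point and bases with exactly `k` expansions just above it. -/

namespace Pool.Agent.KExp

open Finset

lemma cont_T {w : ℕ → ℤ} (hw : Sg w) {c : ℝ} (hc0 : 0 ≤ c) (hc : c < 1) :
    ContinuousOn (fun x => T x w) (Set.Icc 0 c) := by
  unfold T
  refine continuousOn_tsum (u := fun i => c ^ i) (fun i => by fun_prop)
    (summable_geometric_of_lt_one hc0 hc) ?_
  intro i x hx
  rw [Real.norm_eq_abs, abs_mul, abs_of_nonneg (pow_nonneg hx.1 i)]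
  have h1 : |(w i : ℝ)| ≤ 1 := by exact_mod_cast hw.abs_le i
  have h2 : x ^ i ≤ c ^ i := pow_le_pow_left₀ hx.1 hx.2 i
  nlinarith [pow_nonneg hx.1 i, abs_nonneg (w i : ℝ)]

lemma phi_tm : phi tm = tm := by
  funext i
  obtain ⟨l, rfl | rfl⟩ := Nat.even_or_odd' i
  · rw [phi_even, tm_even]
  · rw [phi_odd, tm_odd]

lemma T_tm {x : ℝ} (h0 : 0 < x) (h1 : x < 1) (m : ℕ) : T x tm = P m x * T (X m x) tm := by
  induction m with
  | zero => simp
  | succ m ih =>
    have := T_phi (X_pos h0 m).le (X_lt_one h0 h1 m) sg_tm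
    rw [phi_tm] at this
    rw [ih, this, P_succ, X_succ]; ring

lemma g_le_code {x : ℝ} (h0 : 0 < x) (h1 : x < 1) (m : ℕ) {w : ℕ → ℤ} (hw : Sg w)
    (hw0 : w 0 = 1) : g m x ≤ P m x * T (X m x) w := by
  have := abs_code_le h0 h1 m (hw.shift 1)
  rw [T_step (X_pos h0 m).le (X_lt_one h0 h1 m) hw.abs_le, hw0]
  have c := mul_le_mul_of_nonneg_left (abs_le.1 this).1 (X_pos h0 m).le
  unfold g
  push_cast
  linarith

lemma cont_kap : ContinuousOn kap (Set.Icc 0 (3 / 5)) := by
  unfold kap
  refine ContinuousOn.div (by fun_prop) (by fun_prop) fun x hx => ?_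
  linarith [hx.2]

theorem exists_KL : ∃ x : ℝ, 0.5595 ≤ x ∧ x ≤ 0.5596 ∧ kap x = T x tm := by
  have hc : ContinuousOn (fun x => kap x - T x tm) (Set.Icc 0.5595 0.5596) := by
    refine (cont_kap.sub (cont_T sg_tm (c := 3 / 5) (by norm_num) (by norm_num))).mono ?_
    exact Set.Icc_subset_Icc (by norm_num) (by norm_num)
  have a : kap 0.5595 - T 0.5595 tm ≤ 0 := by
    have h1 := g_le_code (x := 0.5595) (by norm_num) (by norm_num) 3 sg_tm tm_zero
    rw [← T_tm (by norm_num) (by norm_num)] at h1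
    have h2 : kap 0.5595 ≤ g 3 0.5595 := by norm_num [kap, g, R, P, X, prod_range_succ]
    linarith
  have b : 0 ≤ kap 0.5596 - T 0.5596 tm := by
    have h1 := abs_code_le (x := 0.5596) (by norm_num) (by norm_num) 4 sg_tm
    rw [← T_tm (by norm_num) (by norm_num)] at h1
    have h2 : R 4 0.5596 ≤ kap 0.5596 := by norm_num [kap, R, P, X, prod_range_succ]
    linarith [(abs_le.1 h1).2]
  obtain ⟨x, hx, e⟩ := intermediate_value_Icc (by norm_num) hc ⟨a, b⟩
  exact ⟨x, hx.1, hx.2, by simpa [sub_eq_zero] using e⟩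

lemma KL_bounds {x : ℝ} (h0 : 0 < x) (h1 : x < 1) (h : kap x = T x tm) (m : ℕ) :
    g m x ≤ kap x ∧ kap x < R m x := by
  constructor
  · rw [h, T_tm h0 h1 m]; exact g_le_code h0 h1 m sg_tm tm_zero
  · have := abs_code_le h0 h1 (m + 1) sg_tm
    rw [← T_tm h0 h1, ← h] at this
    exact (le_abs_self _).trans_lt (this.trans_lt (R_succ_lt h0 h1 m))

lemma encard_one {x : ℝ} (h0 : 1 / 2 ≤ x) (h1 : x < 1) {y : ℝ} (hy : |y| ≤ 1 / (1 - x))
    (hu : Uq x y) : (Ex x y).encard = 1 :=
  le_antisymm (Uq_iff.1 hu) (Set.one_le_encard_iff_nonempty.2 (exists_Ex h0 h1 hy))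

lemma y1_eq {x : ℝ} (h0 : 0 < x) (m : ℕ) :
    (((-1 : ℤ) : ℝ) * P m x + X m x * rho m x - ((-1 : ℤ) : ℝ)) / x = y1 x := by
  unfold y1; rw [kap_eq_rho h0 m]; push_cast; ring

theorem KL_unique {x : ℝ} (h0 : 1 / 2 ≤ x) (h1 : x < 1) (h : kap x = T x tm) :
    (Ex x (y1 x)).encard = 1 := by
  have x0 : 0 < x := by linarith
  have hb : ∀ m, |rho m x| ≤ R m x := by
    intro m
    obtain ⟨a, b⟩ := KL_bounds x0 h1 h m
    have c := kap_eq_rho x0 m
    have d := R_eq x0 h1 m
    have hX := X_pos x0 m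
    unfold g at a
    refine abs_le.2 ⟨?_, ?_⟩ <;> (by_contra hc; push Not at hc; nlinarith)
  refine encard_one h0 h1 ?_ (uq_of_ag fun L => ?_)
  · have := hb 0
    rw [R_zero] at this
    have e : y1 x = rho 0 x := by unfold y1 rho; simp; ring
    rwa [e]
  · have f := fblk x0 h1 L (KL_bounds x0 h1 h L).2 (-1) (Or.inr rfl) _ (hb L)
    rw [y1_eq x0] at f
    have := f.ag x0 h1 (M := 0) (fun _ _ _ _ i hi => absurd hi (Nat.not_lt_zero i))
    intro w hw v hv i hi
    refine this w hw v hv i ?_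
    have : L < 2 ^ L := Nat.lt_two_pow_self
    omega

lemma small_gap {x : ℝ} (h0 : 0 < x) (h1 : x < 1) {ε : ℝ} (hε : 0 < ε) :
    ∃ n, 2 * X (n + 1) x * R (n + 1) x < ε := by
  have hR := R_pos h0 h1 0
  obtain ⟨n, hn⟩ := exists_pow_lt_of_lt_one (x := ε / (2 * R 0 x)) (by positivity) h1
  refine ⟨n, ?_⟩
  have a : X (n + 1) x ≤ x ^ n := by
    unfold X
    refine pow_le_pow_of_le_one h0.le h1.le ?_
    have : n + 1 < 2 ^ (n + 1) := Nat.lt_two_pow_self
    omega
  have b := R_anti h0 h1 (show 0 ≤ n + 1 by omega)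
  rw [lt_div_iff₀ (by positivity)] at hn
  have c := R_pos h0 h1 (n + 1)
  have d := X_pos h0 (n + 1)
  nlinarith [mul_le_mul a b c.le (pow_pos h0 n).le]

theorem above_KL {c x : ℝ} (h0 : 0 < c) (hc : c < x) (h1 : x < 1) (h : kap c = T c tm) :
    ∃ n, R n x ≤ kap x := by
  have c1 : c < 1 := by linarith
  obtain ⟨n, hn⟩ := small_gap h0 c1 (ε := kap x - kap c) (by linarith [kap_strict hc h1])
  refine ⟨n + 1, ?_⟩
  have a := R_anti_x h0 hc.le h1 n
  have b := (KL_bounds h0 c1 h (n + 1)).1
  rw [g_eq h0 c1] at b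
  linarith

/-- a level `n` code all of whose shifts avoid the branching interval is unique -/
lemma uq_code {x : ℝ} (h0 : 0 < x) (h1 : x < 1) {n : ℕ} (hk : kap x < R n x) {w : ℕ → ℤ}
    (hw : Sg w) (hf : ∀ i, kap x < w i * (P n x * T (X n x) (fun l => w (l + i)))) :
    Uq x (P n x * T (X n x) w) := by
  have key : ∀ L i, Ag x L (P n x * T (X n x) (fun l => w (l + i))) := by
    intro L
    induction L with
    | zero => intro i _ _ _ _ j hj; exact absurd hj (Nat.not_lt_zero j)
    | succ L ih =>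
      intro i
      have e : P n x * T (X n x) (fun l => w (l + i)) =
          w i * P n x + X n x * (P n x * T (X n x) (fun l => w (l + (i + 1)))) := by
        rw [T_step (X_pos h0 n).le (X_lt_one h0 h1 n) (hw.shift i).abs_le]
        have : (fun l => w (l + 1 + i)) = fun l => w (l + (i + 1)) := by
          funext l; congr 1; ring
        simp only [zero_add]
        rw [this]; ring
      have f2 := fblk h0 h1 n hk (w i) (hw i) _ (abs_code_le h0 h1 n (hw.shift (i + 1)))
      rw [← e] at f2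
      have f1 : FR x 1 (P n x * T (X n x) (fun l => w (l + i)))
          ((P n x * T (X n x) (fun l => w (l + i)) - w i) / x) :=
        FR.one (hw i) (by field_simp; ring) (hf i)
      have := (f1.trans f2).ag h0 h1 (ih (i + 1))
      intro a ha b hb j hj
      exact this a ha b hb j (by omega)
  exact uq_of_ag fun L => key L 0

/-- the level `n` code of `-κ` -/
def F (k i : ℕ) : ℤ :=
  if i < 3 * k then (if i % 3 = 0 then -1 else 1)
  else if i % 3 = 0 then 1 else if i % 3 = 1 then -1 else if i < 3 * (2 * k - 1) then 1 else -1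

/-- the code of the side branch at the node number `s` -/
def eta (k s i : ℕ) : ℤ :=
  if i % 3 = 0 then (if i < 3 * s then 1 else if i < 3 * k then -1 else 1)
  else if i % 3 = 1 then (if i < 3 * s then -1 else if i < 3 * k then 1 else -1)
  else if i < 3 * (k - 1) then 1 else if i < 3 * (k + s - 1) then -1
  else if i < 3 * (2 * k - 1) then 1 else -1

lemma sg_F (k : ℕ) : Sg (F k) := fun i => by unfold F; split_ifs <;> simp

lemma sg_eta (k s : ℕ) : Sg (eta k s) := fun i => by unfold eta; split_ifs <;> simp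

lemma eta0 (k s t : ℕ) : eta k s (3 * t) = if t < s then 1 else if t < k then -1 else 1 := by
  unfold eta
  rw [if_pos (by omega)]
  split_ifs <;> omega

lemma eta1 (k s t : ℕ) : eta k s (3 * t + 1) = if t < s then -1 else if t < k then 1 else -1 := by
  unfold eta
  rw [if_neg (by omega), if_pos (by omega)]
  split_ifs <;> omega

lemma eta2 (k s t : ℕ) : eta k s (3 * t + 2) = if t < k - 1 then 1 else
    if t < k + s - 1 then -1 else if t < 2 * k - 1 then 1 else -1 := by
  unfold eta
  rw [if_neg (by omega), if_neg (by omega)]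
  split_ifs <;> omega

lemma F0 (k t : ℕ) : F k (3 * t) = if t < k then -1 else 1 := by
  unfold F
  rw [if_pos (show 3 * t % 3 = 0 by omega), if_pos (show 3 * t % 3 = 0 by omega)]
  split_ifs <;> omega

lemma F1 (k t : ℕ) : F k (3 * t + 1) = if t < k then 1 else -1 := by
  unfold F
  rw [if_neg (show ¬ (3 * t + 1) % 3 = 0 by omega), if_neg (show ¬ (3 * t + 1) % 3 = 0 by omega),
    if_pos (show (3 * t + 1) % 3 = 1 by omega)]
  split_ifs <;> omega

lemma F2 {k : ℕ} (hk : 1 ≤ k) (t : ℕ) : F k (3 * t + 2) = if t < 2 * k - 1 then 1 else -1 := by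
  unfold F
  rw [if_neg (show ¬ (3 * t + 2) % 3 = 0 by omega), if_neg (show ¬ (3 * t + 2) % 3 = 0 by omega),
    if_neg (show ¬ (3 * t + 2) % 3 = 1 by omega)]
  split_ifs <;> omega

lemma eta_eq {k s : ℕ} (h1 : 1 ≤ s) (h2 : s < k) (i : ℕ) :
    eta k s i = F k (i + 3 * (k - s) + 3 * s) - F k (i + 3 * (k - s)) + F k i := by
  have hk : 1 ≤ k := by omega
  obtain ⟨t, rfl | rfl | rfl⟩ : ∃ t, i = 3 * t ∨ i = 3 * t + 1 ∨ i = 3 * t + 2 :=
    ⟨i / 3, by omega⟩
  · rw [show 3 * t + 3 * (k - s) + 3 * s = 3 * (t + k) by omega,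
      show 3 * t + 3 * (k - s) = 3 * (t + (k - s)) by ring, eta0, F0, F0, F0]
    split_ifs <;> omega
  · rw [show 3 * t + 1 + 3 * (k - s) + 3 * s = 3 * (t + k) + 1 by omega,
      show 3 * t + 1 + 3 * (k - s) = 3 * (t + (k - s)) + 1 by ring, eta1, F1, F1, F1]
    split_ifs <;> omega
  · rw [show 3 * t + 2 + 3 * (k - s) + 3 * s = 3 * (t + k) + 2 by omega,
      show 3 * t + 2 + 3 * (k - s) = 3 * (t + (k - s)) + 2 by ring, eta2, F2 hk, F2 hk, F2 hk]
    split_ifs <;> omega

lemma eta_tri {k s : ℕ} (h1 : 1 ≤ s) (h2 : s < k) (i : ℕ) :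
    ¬ (eta k s i = eta k s (i + 1) ∧ eta k s (i + 1) = eta k s (i + 2)) := by
  rintro ⟨a, b⟩
  obtain ⟨t, rfl | rfl | rfl⟩ : ∃ t, i = 3 * t ∨ i = 3 * t + 1 ∨ i = 3 * t + 2 :=
    ⟨i / 3, by omega⟩
  · rw [eta0, eta1] at a
    split_ifs at a <;> omega
  · rw [show 3 * t + 1 + 1 = 3 * t + 2 by ring] at a b
    rw [show 3 * t + 1 + 2 = 3 * (t + 1) by ring, eta0, eta2] at b
    rw [eta1, eta2] at a
    split_ifs at a b <;> omega
  · rw [show 3 * t + 2 + 1 = 3 * (t + 1) by ring, show 3 * t + 2 + 2 = 3 * (t + 1) + 1 by ring,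
      eta0, eta1] at b
    split_ifs at b <;> omega

lemma F_tri (k i : ℕ) : ¬ (F k i = -1 ∧ F k (i + 1) = -1 ∧ F k (i + 2) = -1) := by
  rintro ⟨a, b, c⟩
  unfold F at a b c
  split_ifs at a b c <;> omega

lemma F_tri' {k i : ℕ} (h : 3 * k ≤ i) : ¬ (F k i = 1 ∧ F k (i + 1) = 1 ∧ F k (i + 2) = 1) := by
  rintro ⟨a, b, c⟩
  unfold F at a b c
  split_ifs at a b c <;> omega

lemma lex_F {Y : ℝ} (h0 : 0 < Y) (h1 : Y < 1 / 2) {k : ℕ} (hk : 1 ≤ k) {w : ℕ → ℤ} (hw : Sg w)
    (hw0 : w 0 = 1) (ht : ∀ i, ¬ (w i = -1 ∧ w (i + 1) = -1 ∧ w (i + 2) = -1)) :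
    - T Y (F k) < T Y w := by
  classical
  have hex : ∃ i, - F k i ≠ w i := by
    by_contra hc
    push Not at hc
    refine ht (3 * k - 2) ⟨?_, ?_, ?_⟩ <;> rw [← hc] <;> unfold F <;> split_ifs <;> omega
  set p := Nat.find hex with hp
  have hp1 : ∀ i < p, - F k i = w i := fun i hi => by simpa using Nat.find_min hex hi
  have hp2 : - F k p ≠ w p := Nat.find_spec hex
  rw [← T_neg]
  have hp3 : p ≤ 3 * k := by
    by_contra hc
    refine ht (3 * k - 2) ⟨?_, ?_, ?_⟩ <;> rw [← hp1 _ (by omega)] <;> unfold F <;>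
      split_ifs <;> omega
  rcases hw p with h | h
  · refine T_lt_of_first h0 h1 (sg_F k).neg hw hp1 ?_ h
    rcases sg_F k p with h' | h' <;> omega
  · exfalso
    have h2 : F k p = -1 := by rcases sg_F k p with h' | h' <;> omega
    have h3 : p % 3 = 0 ∧ p < 3 * k := by
      unfold F at h2
      split_ifs at h2 <;> omega
    have h4 : p ≠ 0 := by rintro h4; rw [h4] at h; omega
    refine ht (p - 2) ⟨?_, ?_, by rw [show p - 2 + 2 = p by omega]; exact h⟩ <;>
      rw [← hp1 _ (by omega)] <;> unfold F <;> split_ifs <;> omega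

lemma fr_scale {x : ℝ} (h0 : 0 < x) (h1 : x < 1) (r : ℕ) : ∀ c : ℝ, 0 ≤ c →
    -(1 / (1 - x)) + c / x ^ r < -kap x → FR x r (-(1 / (1 - x)) + c)
      (-(1 / (1 - x)) + c / x ^ r) := by
  induction r with
  | zero => intro c _ _; simp [FR]
  | succ r ih =>
    intro c hc h
    have e : c / x ^ (r + 1) = (c / x) / x ^ r := by field_simp; ring
    have hle : c ≤ c / x ^ (r + 1) := by
      rw [le_div_iff₀ (pow_pos h0 _)]
      have : x ^ (r + 1) ≤ 1 := pow_le_one₀ h0.le h1.le
      nlinarith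
    refine ⟨-1, -(1 / (1 - x)) + c / x, Or.inr rfl, ?_, by push_cast; linarith, ?_⟩
    · have : 1 - x ≠ 0 := by linarith
      push_cast; field_simp; ring
    · rw [e] at h ⊢
      exact ih _ (by positivity) h

theorem count_F {x : ℝ} (h0 : 1 / 2 ≤ x) (h1 : x ≤ 3 / 5) {n k : ℕ} (hk : 1 ≤ k)
    (h : kap x = - (P (n + 1) x * T (X (n + 1) x) (F k))) : (Ex x (y1 x)).encard = k := by
  have x0 : 0 < x := by linarith
  have x1 : x < 1 := by linarith
  set m := n + 1 with hm
  have hY := X_pos x0 m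
  have hY1 := X_lt_one x0 x1 m
  have hY2 : X m x < 1 / 2 := by
    have a : X m x ≤ X 1 x := X_anti x0 x1 (by omega)
    have b : X 1 x = x ^ 2 := rfl
    nlinarith
  have hP := P_pos x0 x1 m
  have sF := sg_F k
  have big : ∀ w : ℕ → ℤ, Sg w → w 0 = 1 →
      (∀ i, ¬ (w i = -1 ∧ w (i + 1) = -1 ∧ w (i + 2) = -1)) → kap x < P m x * T (X m x) w := by
    intro w hw hw0 ht
    have := mul_lt_mul_of_pos_left (lex_F hY hY2 hk hw hw0 ht) hP
    linarith
  have hkR : kap x < R m x := by
    have := big (fun _ => 1) (fun _ => Or.inl rfl) rfl (fun i => by simp)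
    rw [R_eq_T x0 x1] at this
    simpa using this
  -- forcedness of a shift without triples
  have forced : ∀ (w : ℕ → ℤ) (i : ℕ), Sg w →
      (∀ l, i ≤ l → ¬ (w l = - w i ∧ w (l + 1) = - w i ∧ w (l + 2) = - w i)) →
      kap x < w i * (P m x * T (X m x) (fun l => w (l + i))) := by
    intro w i hw ht
    rcases hw i with e | e
    · rw [e]
      have := big (fun l => w (l + i)) (hw.shift i) (by simpa using e) (fun l hl => by
        refine ht (l + i) (by omega) ?_
        rw [e, show l + i + 1 = l + 1 + i by ring, show l + i + 2 = l + 2 + i by ring]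
        exact hl)
      simpa using this
    · rw [e]
      have := big (fun l => - w (l + i)) (hw.shift i).neg (by simp [e]) (fun l hl => by
        refine ht (l + i) (by omega) ?_
        rw [e, show l + i + 1 = l + 1 + i by ring, show l + i + 2 = l + 2 + i by ring]
        omega)
      rw [T_neg] at this
      push_cast
      linarith
  let V : ℕ → ℝ := fun i => P m x * T (X m x) (fun l => F k (l + i))
  have hV : ∀ i, V i = F k i * P m x + X m x * V (i + 1) := by
    intro i
    simp only [V]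
    rw [T_step hY.le hY1 (sF.shift i).abs_le]
    have : (fun l => F k (l + 1 + i)) = fun l => F k (l + (i + 1)) := by
      funext l; congr 1; ring
    simp only [zero_add]
    rw [this]; ring
  have hVb : ∀ i, |V i| ≤ R m x := fun i => abs_code_le x0 x1 m (sF.shift i)
  have c1 : ∀ i, (Ex x ((V i - F k i) / x)).encard = (Ex x (V (i + 1))).encard := by
    intro i
    have := fblk x0 x1 m hkR (F k i) (sF i) _ (hVb (i + 1))
    rw [← hV] at this
    exact this.encard_eq x0 x1
  have fV : ∀ i, (F k i = 1 ∨ 3 * k ≤ i) → kap x < F k i * V i := by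
    intro i hi
    refine forced (F k) i sF fun l hl => ?_
    rcases sF i with e | e
    · rw [e]; exact F_tri k l
    · rw [e, neg_neg]; exact F_tri' (by omega)
  have c2 : ∀ i, (F k i = 1 ∨ 3 * k ≤ i) → (Ex x (V i)).encard = (Ex x (V (i + 1))).encard := by
    intro i hi
    rw [← c1]
    exact (FR.one (sF i) (by field_simp; ring) (fV i hi)).encard_eq x0 x1
  have hR0 : R m x ≤ 1 / (1 - x) := by rw [← R_zero]; exact R_anti x0 x1 (by omega)
  have last : (Ex x (V (3 * (k - 1) + 1))).encard = 1 := by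
    refine encard_one h0 x1 ((hVb _).trans hR0) (uq_code x0 x1 hkR (sF.shift _) fun i => ?_)
    have := fV (i + (3 * (k - 1) + 1)) (by unfold F; split_ifs <;> omega)
    simp only [V] at this
    have e : (fun l => F k (l + i + (3 * (k - 1) + 1))) =
        fun l => F k (l + (i + (3 * (k - 1) + 1))) := by
      funext l; congr 1; ring
    rw [e]; exact this
  have V0 : V 0 = -kap x := by simp only [V, add_zero]; rw [h]; ring
  have side : ∀ s, 1 ≤ s → s < k → (Ex x ((V (3 * s) - 1) / x)).encard = 1 := by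
    intro s s1 s2
    have se := sg_eta k s
    have e0 : eta k s 0 = 1 := by unfold eta; split_ifs <;> omega
    set ν := P m x * T (X m x) (eta k s) with hν
    have b2 : ∀ i, |F k (i + 3 * s) - F k i| ≤ 2 := fun i => by
      rcases sF (i + 3 * s) with a | a <;> rcases sF i with b | b <;> simp [a, b]
    have e1 : V (3 * s) + kap x = X m x ^ (3 * (k - s)) * (ν + kap x) := by
      have a := T_sub hY.le hY1 (sF.shift (3 * s)).abs_le sF.abs_le
      have b := T_zero_head hY.le hY1 b2 (L := 3 * (k - s)) (fun i hi => by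
        unfold F; split_ifs <;> omega)
      have c := T_sub hY.le hY1 se.abs_le sF.abs_le
      have d : (fun i => F k (i + 3 * (k - s) + 3 * s) - F k (i + 3 * (k - s))) =
          fun i => eta k s i - F k i := by
        funext i; rw [eta_eq s1 s2]; ring
      rw [d, c, a] at b
      simp only [V]
      rw [h, hν]
      linear_combination (P m x) * b
    have hνb := abs_code_le x0 x1 m se
    rw [← hν] at hνb
    have hνg : kap x < ν := big _ se e0 fun i hi => eta_tri s1 s2 i (by omega)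
    have hk0 : 0 ≤ kap x := by unfold kap; apply div_nonneg <;> linarith
    have hk1 := kap_add_one x1
    have er : X m x ^ (3 * (k - s)) = x ^ (2 ^ m * (3 * (k - s))) := by
      unfold X; rw [← pow_mul]
    set r := 2 ^ m * (3 * (k - s)) with hr
    have hxr := pow_pos x0 r
    have e2 : (V (3 * s) - 1) / x = -(1 / (1 - x)) + x ^ r * (ν + kap x) / x := by
      have : V (3 * s) - 1 = -(x * (1 / (1 - x))) + x ^ r * (ν + kap x) := by
        rw [← er]; linarith
      rw [this]; field_simp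
    have e3 : -(1 / (1 - x)) + x ^ r * (ν + kap x) / x / x ^ r = (ν - 1) / x := by
      have : ν - 1 = -(x * (1 / (1 - x))) + (ν + kap x) := by linarith
      rw [this]; field_simp
    have hR1 : R m x ≤ R 1 x := R_anti x0 x1 (by omega)
    have hR1' : R 1 x = 1 - x * R 1 x := by simpa using R_succ x0 x1 0
    have hpos : 0 ≤ ν + kap x := by linarith
    have f1 := fr_scale x0 x1 r (x ^ r * (ν + kap x) / x) (by positivity) (by
      rw [e3, div_lt_iff₀ x0]
      have := (abs_le.1 hνb).2
      nlinarith)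
    rw [e3, ← e2] at f1
    rw [f1.encard_eq x0 x1]
    have e4 : ν = ((1 : ℤ) : ℝ) * P m x +
        X m x * (P m x * T (X m x) (fun l => eta k s (l + 1))) := by
      rw [hν, T_step hY.le hY1 se.abs_le, e0]; ring
    have f2 := fblk x0 x1 m hkR 1 (Or.inl rfl) _ (abs_code_le x0 x1 m (se.shift 1))
    rw [← e4] at f2
    have f3 := f2.encard_eq x0 x1
    push_cast at f3
    rw [f3]
    refine encard_one h0 x1 ((abs_code_le x0 x1 m (se.shift 1)).trans hR0)
      (uq_code x0 x1 hkR (se.shift 1) fun i => ?_)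
    have := forced (eta k s) (i + 1) se fun l _ hl => eta_tri s1 s2 l (by omega)
    have e : (fun l => eta k s (l + i + 1)) = fun l => eta k s (l + (i + 1)) := by
      funext l; congr 1
    rw [e]; exact this
  have main : ∀ j s, s + j + 1 = k → (Ex x (V (3 * s + 1))).encard = (j + 1 : ℕ) := by
    intro j
    induction j with
    | zero =>
      intro s hs
      have : s = k - 1 := by omega
      rw [this, last]; rfl
    | succ j ih =>
      intro s hs
      rw [c2 _ (Or.inl (by unfold F; split_ifs <;> omega)),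
        c2 _ (Or.inl (by unfold F; split_ifs <;> omega)), encard_split x0 x1,
        show 3 * s + 1 + 1 + 1 = 3 * (s + 1) by ring, side (s + 1) (by omega) (by omega)]
      have e : F k (3 * (s + 1)) = -1 := by unfold F; split_ifs <;> omega
      have := c1 (3 * (s + 1))
      rw [e] at this
      push_cast at this
      rw [sub_neg_eq_add] at this
      rw [this, ih (s + 1) (by omega)]
      push_cast; ring
  have e0 : F k 0 = -1 := by unfold F; split_ifs <;> omega
  have := c1 0
  rw [e0, V0] at this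
  push_cast at this
  rw [sub_neg_eq_add] at this
  unfold y1
  rw [this]
  have h2 := main (k - 1) 0 (by omega)
  rw [show k - 1 + 1 = k by omega] at h2
  exact h2

theorem upper {c : ℝ} (hc0 : 0.5595 ≤ c) (hc1 : c ≤ 0.5596) (h : kap c = T c tm) {k : ℕ}
    (hk : 2 ≤ k) {a : ℝ} (ha0 : 1 / 2 < a) (ha : a < c) :
    ∃ x, a ≤ x ∧ x < c ∧ (Ex x (y1 x)).encard = k := by
  have c0 : 0 < c := by linarith
  have c1 : c < 1 := by linarith
  have a0 : 0 < a := by linarith
  have a1 : a < 1 := by linarith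
  obtain ⟨n, hn⟩ := small_gap c0 c1 (ε := kap c - kap a) (by linarith [kap_strict ha c1])
  have hX : ∀ x, 0 < x → x ≤ 3 / 5 → X (n + 1) x < 1 / 2 := by
    intro x x0 x1
    have a : X (n + 1) x ≤ X 1 x := X_anti x0 (by linarith) (by omega)
    have b : X 1 x = x ^ 2 := rfl
    nlinarith
  have hc : ContinuousOn (fun x => kap x + P (n + 1) x * T (X (n + 1) x) (F k))
      (Set.Icc a c) := by
    refine (cont_kap.mono (Set.Icc_subset_Icc a0.le (by linarith))).add (ContinuousOn.mul ?_ ?_)
    · unfold P; fun_prop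
    · refine (cont_T (sg_F k) (c := 1 / 2) (by norm_num) (by norm_num)).comp
        (by unfold X; fun_prop) fun x hx => ?_
      exact ⟨(X_pos (by linarith [hx.1]) _).le,
        (hX x (by linarith [hx.1]) (by linarith [hx.2])).le⟩
  have e0 : F k 0 = -1 := by unfold F; split_ifs <;> omega
  have lo : kap a + P (n + 1) a * T (X (n + 1) a) (F k) ≤ 0 := by
    have h1 := g_le_code a0 a1 (n + 1) (sg_F k).neg (by simp [e0])
    rw [T_neg] at h1
    have h2 := g_anti_x a0 ha.le c1 n (by linarith [hX a a0 (by linarith)])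
    have h3 := (KL_bounds c0 c1 h (n + 1)).2
    rw [g_eq c0 c1] at h2
    linarith
  have hi : 0 < kap c + P (n + 1) c * T (X (n + 1) c) (F k) := by
    obtain ⟨t1, t2, t3, t4, t5, -⟩ := tm_vals
    have h1 := T_lt_of_first (X_pos c0 (n + 1)) (hX c c0 (by linarith)) (sg_F k).neg sg_tm
      (p := 5) (fun i hi => by
        have t0 := tm_zero
        have f : ∀ j < 6, F k j = if j % 3 = 0 then -1 else 1 := fun j hj => by
          unfold F; rw [if_pos (by omega)]
        rw [f i (by omega)]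
        interval_cases i <;> simp [*]) (by unfold F; rw [if_pos (by omega)]; simp) t5
    rw [T_neg] at h1
    have h2 := mul_lt_mul_of_pos_left h1 (P_pos c0 c1 (n + 1))
    rw [h, T_tm c0 c1 (n + 1)]
    linarith
  obtain ⟨x, hx, e⟩ := intermediate_value_Icc ha.le hc ⟨lo, hi.le⟩
  refine ⟨x, hx.1, lt_of_le_of_ne hx.2 ?_, count_F (n := n) (by linarith [hx.1])
    (by linarith [hx.2]) (by omega) (by simp only at e; linarith)⟩
  rintro rfl
  simp only at e
  linarith

end Pool.Agent.KExp
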