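import Pool.Agent.MP_bd9604_nt.Defs
import Pool.Agent.MP_bd9604_nt.Upper

/-! Translation between digits `0, 1` in base `q` and digits `± 1` with `x = 1 / q`. -/

namespace Pool.Agent.KExp

lemma hasSum_iff {q : ℝ} (hq : 1 < q) {a : ℕ → ℕ} (ha : ∀ i, a i = 0 ∨ a i = 1) :
    HasSum (fun i => (a i : ℝ) / q ^ (i + 1)) 1 ↔
      T q⁻¹ (fun i => 2 * (a i : ℤ) - 1) = y1 q⁻¹ := by
  have q0 : 0 < q := by linarith
  have x0 : 0 < q⁻¹ := inv_pos.2 q0
  have x1 : q⁻¹ < 1 := inv_lt_one_of_one_lt₀ hq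
  set x := q⁻¹ with hx
  have e : (fun i => (a i : ℝ) / q ^ (i + 1)) = fun i => x * (((a i : ℤ) : ℝ) * x ^ i) := by
    funext i; rw [hx, inv_pow]; push_cast; field_simp; ring
  have hs : Summable fun i => ((a i : ℤ) : ℝ) * x ^ i :=
    summable_bdd x0.le x1 (C := 1) fun i => by rcases ha i with h | h <;> simp [h]
  have hg := hasSum_geometric_of_lt_one x0.le x1
  have hT : T x (fun i => 2 * (a i : ℤ) - 1) =
      2 * (∑' i, ((a i : ℤ) : ℝ) * x ^ i) - (1 - x)⁻¹ := by
    unfold T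
    rw [← ((hs.hasSum.mul_left 2).sub hg).tsum_eq]
    refine tsum_congr fun i => ?_
    push_cast; ring
  have hy : y1 x = 2 / x - (1 - x)⁻¹ := by
    unfold y1 kap
    have : 1 - x ≠ 0 := by linarith
    field_simp; ring
  rw [e, hT, hy]
  constructor
  · intro h
    have := (hs.hasSum.mul_left x).unique h
    have h2 : ∑' i, ((a i : ℤ) : ℝ) * x ^ i = 1 / x := by
      rw [eq_div_iff x0.ne']; linarith
    rw [h2]; ring
  · intro h
    have h2 : x * ∑' i, ((a i : ℤ) : ℝ) * x ^ i = 1 := by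
      have : ∑' i, ((a i : ℤ) : ℝ) * x ^ i = 1 / x := by
        have : 2 / x = 2 * (1 / x) := by ring
        linarith
      rw [this]; field_simp
    rw [← h2]
    exact hs.hasSum.mul_left x

lemma encard_bridge {q : ℝ} (hq : 1 < q) :
    (expansionsOfOne q).encard = (Ex q⁻¹ (y1 q⁻¹)).encard := by
  have hb : Set.BijOn (fun (a : ℕ → ℕ) (i : ℕ) => 2 * (a i : ℤ) - 1) (expansionsOfOne q)
      (Ex q⁻¹ (y1 q⁻¹)) := by
    refine ⟨fun a ha => ⟨fun i => ?_, (hasSum_iff hq ha.1).1 ha.2⟩, fun a _ b _ h => ?_,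
      fun w hw => ?_⟩
    · rcases ha.1 i with h | h <;> simp [h]
    · funext i
      have := congrFun h i
      simp only at this
      omega
    · have e : (fun i => 2 * (((if w i = 1 then 1 else 0 : ℕ)) : ℤ) - 1) = w := by
        funext i
        rcases hw.1 i with h | h <;> simp [h]
      have ha : ∀ i, (if w i = 1 then 1 else 0 : ℕ) = 0 ∨ (if w i = 1 then 1 else 0 : ℕ) = 1 :=
        fun i => by split_ifs <;> simp
      refine ⟨fun i => if w i = 1 then 1 else 0, ⟨ha, (hasSum_iff hq ha).2 ?_⟩, e⟩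
      rw [e]; exact hw.2
  rw [← hb.image_eq, hb.injOn.encard_image]

end Pool.Agent.KExp
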