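import Mathlib

namespace Pool.Agent.KExp

/-- The `q`-expansions of `1`: digit sequences in `{0, 1}` with `∑ a i / q ^ (i + 1) = 1`. -/
def expansionsOfOne (q : ℝ) : Set (ℕ → ℕ) :=
  {a | (∀ i, a i = 0 ∨ a i = 1) ∧ HasSum (fun i => (a i : ℝ) / q ^ (i + 1)) 1}

/-- The bases `q ∈ (1, 2]` in which `1` has exactly `k` expansions. -/
def bases (k : ℕ) : Set ℝ :=
  {q | 1 < q ∧ q ≤ 2 ∧ (expansionsOfOne q).encard = k}

end Pool.Agent.KExp
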