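import Pool.Agent.MP_bd9604_nt.Basic

/-! The Thue-Morse levels. -/

namespace Pool.Agent.KExp

open Finset

noncomputable def X (m : ℕ) (x : ℝ) : ℝ := x ^ (2 ^ m)
noncomputable def P (m : ℕ) (x : ℝ) : ℝ := ∏ i ∈ range m, (1 - x ^ (2 ^ i))
noncomputable def R (m : ℕ) (x : ℝ) : ℝ := P m x / (1 - X m x)
noncomputable def g (m : ℕ) (x : ℝ) : ℝ := P m x - X m x * R m x
noncomputable def rho (m : ℕ) (x : ℝ) : ℝ := (P m x - kap x) / X m x

@[simp] lemma X_zero (x : ℝ) : X 0 x = x := by simp [X]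
@[simp] lemma P_zero (x : ℝ) : P 0 x = 1 := by simp [P]
lemma X_succ (m : ℕ) (x : ℝ) : X (m + 1) x = X m x ^ 2 := by
  unfold X; rw [← pow_mul, pow_succ]
lemma P_succ (m : ℕ) (x : ℝ) : P (m + 1) x = P m x * (1 - X m x) := by
  unfold P X; rw [prod_range_succ]
lemma R_zero (x : ℝ) : R 0 x = 1 / (1 - x) := by simp [R]

lemma X_add (m t : ℕ) (x : ℝ) : X (m + t) x = X t (X m x) := by
  unfold X; rw [← pow_mul, pow_add]
lemma P_add (m t : ℕ) (x : ℝ) : P (m + t) x = P m x * P t (X m x) := by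
  induction t with
  | zero => simp
  | succ t ih => rw [← add_assoc, P_succ, P_succ, ih, X_add]; ring

section
variable {x : ℝ} (h0 : 0 < x) (h1 : x < 1)
include h0

lemma X_pos (m : ℕ) : 0 < X m x := pow_pos h0 _

include h1

lemma X_lt_one (m : ℕ) : X m x < 1 := pow_lt_one₀ h0.le h1 (by positivity)

lemma X_le (m : ℕ) : X m x ≤ x := by
  unfold X
  exact pow_le_of_le_one h0.le h1.le (by positivity)

lemma X_anti {m k : ℕ} (h : m ≤ k) : X k x ≤ X m x :=
  pow_le_pow_of_le_one h0.le h1.le (Nat.pow_le_pow_right (by norm_num) h)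

lemma P_pos (m : ℕ) : 0 < P m x := by
  induction m with
  | zero => simp
  | succ m ih => rw [P_succ]; exact mul_pos ih (by linarith [X_lt_one h0 h1 m])

lemma P_le_one (m : ℕ) : P m x ≤ 1 := by
  induction m with
  | zero => simp
  | succ m ih => rw [P_succ]; nlinarith [X_pos h0 m, P_pos h0 h1 m]

lemma R_pos (m : ℕ) : 0 < R m x := div_pos (P_pos h0 h1 m) (by linarith [X_lt_one h0 h1 m])

lemma R_eq (m : ℕ) : R m x = P m x + X m x * R m x := by
  have : 1 - X m x ≠ 0 := by linarith [X_lt_one h0 h1 m]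
  unfold R; field_simp; ring

lemma R_succ (m : ℕ) : R (m + 1) x = P m x - X m x * R (m + 1) x := by
  have h2 : 1 - X m x ≠ 0 := by linarith [X_lt_one h0 h1 m]
  have h3 : 1 + X m x ≠ 0 := by linarith [X_pos h0 m]
  have h4 : 1 - X m x ^ 2 = (1 - X m x) * (1 + X m x) := by ring
  unfold R; rw [X_succ, P_succ, h4]; field_simp; ring

lemma R_succ' (m : ℕ) : R (m + 1) x = P m x / (1 + X m x) := by
  have h3 : 1 + X m x ≠ 0 := by linarith [X_pos h0 m]
  rw [eq_div_iff h3]; linarith [R_succ h0 h1 m]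

lemma R_succ_lt (m : ℕ) : R (m + 1) x < R m x := by
  have a := R_eq h0 h1 m
  have b := R_succ h0 h1 m
  have c := mul_pos (X_pos h0 m) (R_pos h0 h1 m)
  have d := mul_pos (X_pos h0 m) (R_pos h0 h1 (m + 1))
  linarith

lemma R_anti {m k : ℕ} (h : m ≤ k) : R k x ≤ R m x := by
  induction h with
  | refl => exact le_rfl
  | step _ ih => exact (R_succ_lt h0 h1 _).le.trans ih

lemma g_eq (m : ℕ) : g m x = R m x * (1 - 2 * X m x) := by
  unfold g; linarith [R_eq h0 h1 m]

lemma g_lt_R (m : ℕ) : g m x < R m x := by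
  rw [g_eq h0 h1]; nlinarith [R_pos h0 h1 m, X_pos h0 m]

lemma g_le_succ (m : ℕ) : g m x ≤ g (m + 1) x := by
  have a := R_eq h0 h1 m
  have b := R_succ h0 h1 m
  have c := X_pos h0 m
  have c1 := X_lt_one h0 h1 m
  have d := P_pos h0 h1 m
  have h2 : 1 - X m x ≠ 0 := by linarith
  have h3 : 1 + X m x ≠ 0 := by linarith
  have e : g (m + 1) x - g m x = 2 * P m x * X m x ^ 3 / ((1 - X m x) * (1 + X m x)) := by
    rw [g_eq h0 h1, g_eq h0 h1, R_succ' h0 h1, X_succ]; unfold R; field_simp; ring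
  have : 0 ≤ 2 * P m x * X m x ^ 3 / ((1 - X m x) * (1 + X m x)) := by
    have : 0 < 1 - X m x := by linarith
    positivity
  linarith

lemma g_mono {m k : ℕ} (h : m ≤ k) : g m x ≤ g k x := by
  induction h with
  | refl => exact le_rfl
  | step _ ih => exact ih.trans (g_le_succ h0 h1 _)

lemma g_lt_R' (m k : ℕ) : g m x < R k x :=
  ((g_mono h0 h1 (le_max_left m k)).trans_lt (g_lt_R h0 h1 _)).trans_le
    (R_anti h0 h1 (le_max_right m k))

omit h1 in
lemma kap_eq_rho (m : ℕ) : kap x = P m x - X m x * rho m x := by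
  have := (X_pos h0 m).ne'
  unfold rho; field_simp; ring

omit h1 in
/-- the block `φ^m(s)` after its first letter -/
lemma blk (m : ℕ) : ∀ (s : ℤ), (s = 1 ∨ s = -1) → ∀ y' : ℝ,
    Rch x ((s * P m x + X m x * y' - s) / x) y' := by
  induction m with
  | zero =>
    intro s _ y'
    have : (s * P 0 x + X 0 x * y' - s) / x = y' := by simp; field_simp
    rw [this]; exact Rch.refl _ _
  | succ m ih =>
    intro s hs y'
    have e : s * P (m + 1) x + X (m + 1) x * y' =
        s * P m x + X m x * (((-s : ℤ) : ℝ) * P m x + X m x * y') := by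
      rw [P_succ, X_succ]; push_cast; ring
    rw [e]
    have hs' : -s = 1 ∨ -s = -1 := by omega
    refine (ih s hs _).trans ((Rch.one hs' ?_).trans (ih (-s) hs' y'))
    field_simp; ring

omit h1 in
lemma blk' (m : ℕ) {s : ℤ} (hs : s = 1 ∨ s = -1) {y y' : ℝ} (hy : y = s * P m x + X m x * y') :
    Rch x y y' := by
  refine (Rch.one hs ?_).trans (blk h0 m s hs y')
  rw [hy]; field_simp; ring

/-- scaling about the left end point -/
lemma rch_scale (r : ℕ) (c : ℝ) : Rch x (-(1 / (1 - x)) + c) (-(1 / (1 - x)) + c / x ^ r) := by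
  induction r with
  | zero => simpa using Rch.refl _ _
  | succ r ih =>
    refine ih.trans (Rch.one (Or.inr rfl) ?_)
    have : 1 - x ≠ 0 := by linarith
    push_cast; field_simp; ring

/-- if the `+` branch of `-κ + b` is unique, so is the `+` branch of `-κ + b / x ^ r` -/
lemma uq_scale {b : ℝ} (r : ℕ) (h : Uq x ((-kap x + b - 1) / x)) :
    Uq x ((-kap x + b / x ^ r - 1) / x) := by
  have hk := kap_add_one h1
  have e1 : (-kap x + b - 1) / x = -(1 / (1 - x)) + b / x := by
    have : -kap x + b - 1 = -(x * (1 / (1 - x))) + b := by linarith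
    rw [this]; field_simp
  have e2 : (-kap x + b / x ^ r - 1) / x = -(1 / (1 - x)) + (b / x) / x ^ r := by
    have : -kap x + b / x ^ r - 1 = -(x * (1 / (1 - x))) + b / x ^ r := by linarith
    rw [this]; field_simp
  rw [e1] at h; rw [e2]
  exact (rch_scale h0 h1 r _).uq h0 h1 h

end

/-- `L` forced steps -/
def FR (x : ℝ) : ℕ → ℝ → ℝ → Prop
  | 0, y, y' => y = y'
  | L + 1, y, y' => ∃ (s : ℤ) (y'' : ℝ), (s = 1 ∨ s = -1) ∧ y = s + x * y'' ∧ kap x < s * y ∧
      FR x L y'' y'

lemma FR.trans {x : ℝ} {L M : ℕ} {a b c : ℝ} (h : FR x L a b) (h' : FR x M b c) :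
    FR x (L + M) a c := by
  induction L generalizing a with
  | zero => simp only [FR] at h; subst h; simpa using h'
  | succ L ih =>
    obtain ⟨s, y'', hs, e, hk, hr⟩ := h
    rw [Nat.succ_add]
    exact ⟨s, y'', hs, e, hk, ih hr⟩

lemma FR.one {x y y' : ℝ} {s : ℤ} (hs : s = 1 ∨ s = -1) (hy : y = s + x * y')
    (hk : kap x < s * y) : FR x 1 y y' := ⟨s, y', hs, hy, hk, rfl⟩

lemma forced_head {x : ℝ} (h0 : 0 < x) (h1 : x < 1) {y : ℝ} {s : ℤ} (hs : s = 1 ∨ s = -1)
    (hk : kap x < s * y) {w : ℕ → ℤ} (hw : w ∈ Ex x y) : w 0 = s := by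
  have e := T_step h0.le h1 hw.1.abs_le
  have b := abs_T_le h0.le h1 (hw.1.shift 1).abs_le
  rw [hw.2] at e
  have hk1 := kap_add_one h1
  obtain ⟨b1, b2⟩ := abs_le.1 b
  push_cast at b1 b2
  have c1 := mul_le_mul_of_nonneg_left b1 h0.le
  have c2 := mul_le_mul_of_nonneg_left b2 h0.le
  rcases hs with rfl | rfl <;> rcases hw.1 0 with h | h
  · exact h
  · exfalso; rw [h] at e; push_cast at e hk; linarith
  · exfalso; rw [h] at e; push_cast at e hk; linarith
  · exact h

lemma FR.encard_eq {x : ℝ} (h0 : 0 < x) (h1 : x < 1) {L : ℕ} {y y' : ℝ} (h : FR x L y y') :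
    (Ex x y).encard = (Ex x y').encard := by
  induction L generalizing y with
  | zero => simp only [FR] at h; rw [h]
  | succ L ih =>
    obtain ⟨s, y'', hs, e, hk, hr⟩ := h
    rw [← ih hr, ← (cons_inj s).encard_image (Ex x y'')]
    congr 1
    ext w
    constructor
    · intro hw
      have := forced_head h0 h1 hs hk hw
      exact ⟨_, tail_mem h0 h1 hw (by rw [this]; exact e), by rw [← this, cons_tail]⟩
    · rintro ⟨v, hv, rfl⟩
      exact cons_mem h0 h1 hs e hv

/-- all expansions of `y` agree on the first `L` digits -/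
def Ag (x : ℝ) (L : ℕ) (y : ℝ) : Prop := ∀ w ∈ Ex x y, ∀ v ∈ Ex x y, ∀ i < L, w i = v i

lemma FR.ag {x : ℝ} (h0 : 0 < x) (h1 : x < 1) {L M : ℕ} {y y' : ℝ} (h : FR x L y y')
    (ha : Ag x M y') : Ag x (M + L) y := by
  induction L generalizing y with
  | zero => simp only [FR] at h; rw [h]; exact ha
  | succ L ih =>
    obtain ⟨s, y'', hs, e, hk, hr⟩ := h
    intro w hw v hv i hi
    have a := forced_head h0 h1 hs hk hw
    have b := forced_head h0 h1 hs hk hv
    cases i with
    | zero => rw [a, b]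
    | succ i =>
      exact ih hr _ (tail_mem h0 h1 hw (by rw [a]; exact e)) _
        (tail_mem h0 h1 hv (by rw [b]; exact e)) i (by omega)

lemma uq_of_ag {x y : ℝ} (h : ∀ L, Ag x L y) : Uq x y := by
  intro w hw v hv
  funext i
  exact h (i + 1) w hw v hv i (Nat.lt_succ_self i)

/-- inside a block all steps are forced -/
lemma fblk {x : ℝ} (h0 : 0 < x) (h1 : x < 1) (m : ℕ) : kap x < R m x →
    ∀ (s : ℤ), (s = 1 ∨ s = -1) → ∀ y' : ℝ, |y'| ≤ R m x →
      FR x (2 ^ m - 1) ((s * P m x + X m x * y' - s) / x) y' := by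
  induction m with
  | zero =>
    intro _ s _ y' _
    have : (s * P 0 x + X 0 x * y' - s) / x = y' := by simp; field_simp
    rw [this]; simp [FR]
  | succ m ih =>
    intro hk s hs y' hy
    have e : s * P (m + 1) x + X (m + 1) x * y' =
        s * P m x + X m x * (((-s : ℤ) : ℝ) * P m x + X m x * y') := by
      rw [P_succ, X_succ]; push_cast; ring
    rw [e]
    have hs' : -s = 1 ∨ -s = -1 := by omega
    have hlt := R_succ_lt h0 h1 m
    have hX := X_pos h0 m
    have a := R_eq h0 h1 m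
    have b := R_succ h0 h1 m
    obtain ⟨y1, y2⟩ := abs_le.1 hy
    have c1 := mul_le_mul_of_nonneg_left y1 hX.le
    have c2 := mul_le_mul_of_nonneg_left y2 hX.le
    have c3 := mul_lt_mul_of_pos_left hlt hX
    have hP := P_pos h0 h1 m
    have hb : |((-s : ℤ) : ℝ) * P m x + X m x * y'| ≤ R m x := by
      rcases hs with rfl | rfl <;> push_cast <;> refine abs_le.2 ⟨by nlinarith, by nlinarith⟩
    have f1 := ih (hk.trans hlt) s hs _ hb
    have f3 := ih (hk.trans hlt) (-s) hs' y' (hy.trans hlt.le)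
    have f2 : FR x 1 (((-s : ℤ) : ℝ) * P m x + X m x * y')
        ((((-s : ℤ) : ℝ) * P m x + X m x * y' - ((-s : ℤ) : ℝ)) / x) := by
      refine FR.one hs' (by field_simp; ring) ?_
      rcases hs with rfl | rfl <;> push_cast <;> nlinarith
    have := (f1.trans f2).trans f3
    have e2 : 2 ^ m - 1 + 1 + (2 ^ m - 1) = 2 ^ (m + 1) - 1 := by
      have : 1 ≤ 2 ^ m := Nat.one_le_two_pow
      rw [pow_succ]; omega
    rwa [e2] at this

/-! monotonicity in `x` -/

lemma X_mono {a b : ℝ} (ha : 0 ≤ a) (hab : a ≤ b) (m : ℕ) : X m a ≤ X m b :=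
  pow_le_pow_left₀ ha hab _

lemma P_anti {a b : ℝ} (ha : 0 < a) (hab : a ≤ b) (hb : b < 1) (m : ℕ) : P m b ≤ P m a := by
  induction m with
  | zero => simp
  | succ m ih =>
    rw [P_succ, P_succ]
    have h1 := X_mono ha.le hab m
    have h2 := X_lt_one (ha.trans_le hab) hb m
    have h3 := P_pos ha (hab.trans_lt hb) m
    exact mul_le_mul ih (by linarith) (by linarith) h3.le

lemma R_anti_x {a b : ℝ} (ha : 0 < a) (hab : a ≤ b) (hb : b < 1) (m : ℕ) :
    R (m + 1) b ≤ R (m + 1) a := by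
  rw [R_succ' ha (hab.trans_lt hb), R_succ' (ha.trans_le hab) hb]
  have h1 := X_mono ha.le hab m
  have h2 := X_pos ha m
  exact div_le_div₀ (P_pos ha (hab.trans_lt hb) m).le (P_anti ha hab hb m) (by linarith)
    (by linarith)

lemma g_anti_x {a b : ℝ} (ha : 0 < a) (hab : a ≤ b) (hb : b < 1) (m : ℕ)
    (hX : 2 * X (m + 1) a ≤ 1) : g (m + 1) b ≤ g (m + 1) a := by
  rw [g_eq ha (hab.trans_lt hb), g_eq (ha.trans_le hab) hb]
  have h1 := X_mono ha.le hab (m + 1)
  have h2 := R_anti_x ha hab hb m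
  have h3 := R_pos (ha.trans_le hab) hb (m + 1)
  nlinarith

/-! the morphism -/

def phi (w : ℕ → ℤ) (i : ℕ) : ℤ := if i % 2 = 0 then w (i / 2) else - w (i / 2)

lemma phi_even (w : ℕ → ℤ) (i : ℕ) : phi w (2 * i) = w i := by
  unfold phi; rw [if_pos (by omega)]; congr 1; omega

lemma phi_odd (w : ℕ → ℤ) (i : ℕ) : phi w (2 * i + 1) = - w i := by
  unfold phi; rw [if_neg (by omega)]; congr 2; omega

lemma Sg.phi {w : ℕ → ℤ} (h : Sg w) : Sg (phi w) := fun i => by
  unfold KExp.phi; split_ifs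
  · exact h _
  · exact h.neg _

lemma T_phi {x : ℝ} (h0 : 0 ≤ x) (h1 : x < 1) {w : ℕ → ℤ} (h : Sg w) :
    T x (phi w) = (1 - x) * T (x ^ 2) w := by
  have hx2 : x ^ 2 < 1 := pow_lt_one₀ h0 h1 (by norm_num)
  have s := (summable_bdd (sq_nonneg x) hx2 h.abs_le).hasSum
  have he : HasSum (fun i => (phi w (2 * i) : ℝ) * x ^ (2 * i)) (T (x ^ 2) w) := by
    simpa [phi_even, pow_mul, T] using s
  have ho : HasSum (fun i => (phi w (2 * i + 1) : ℝ) * x ^ (2 * i + 1)) (-x * T (x ^ 2) w) := by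
    have := s.mul_left (-x)
    have e : (fun i => (phi w (2 * i + 1) : ℝ) * x ^ (2 * i + 1)) =
        fun i => -x * ((w i : ℝ) * (x ^ 2) ^ i) := by
      funext i; rw [phi_odd, ← pow_mul]; push_cast; ring
    rw [e]; exact this
  have := (HasSum.even_add_odd (f := fun i => (phi w i : ℝ) * x ^ i) he ho).tsum_eq
  unfold T at this ⊢
  rw [this]; ring

def tm (i : ℕ) : ℤ := if i = 0 then 1 else if i % 2 = 0 then tm (i / 2) else - tm (i / 2)
  termination_by i
  decreasing_by all_goals omega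

lemma tm_zero : tm 0 = 1 := by rw [tm]; simp

lemma tm_even (i : ℕ) : tm (2 * i) = tm i := by
  rcases Nat.eq_zero_or_pos i with rfl | h
  · rfl
  · rw [tm, if_neg (by omega), if_pos (by omega)]; congr 1; omega

lemma tm_odd (i : ℕ) : tm (2 * i + 1) = - tm i := by
  rw [tm, if_neg (by omega), if_neg (by omega)]; congr 2; omega

lemma sg_tm : Sg tm := by
  intro i
  induction i using Nat.strong_induction_on with
  | _ i ih =>
    rcases Nat.eq_zero_or_pos i with rfl | h
    · left; exact tm_zero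
    · obtain ⟨j, rfl | rfl⟩ := Nat.even_or_odd' i
      · rw [tm_even]; exact ih j (by omega)
      · rw [tm_odd]; rcases ih j (by omega) with h | h <;> simp [h]

lemma sum_tm (t : ℕ) : ∀ Y : ℝ, ∑ i ∈ range (2 ^ t), (tm i : ℝ) * Y ^ i = P t Y := by
  induction t with
  | zero => intro Y; simp [tm_zero]
  | succ t ih =>
    intro Y
    have e : ∀ n : ℕ, ∑ i ∈ range (2 * n), (tm i : ℝ) * Y ^ i =
        (1 - Y) * ∑ i ∈ range n, (tm i : ℝ) * (Y ^ 2) ^ i := by
      intro n
      induction n with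
      | zero => simp
      | succ n ihn =>
        rw [show 2 * (n + 1) = 2 * n + 1 + 1 by ring, sum_range_succ, sum_range_succ, ihn,
          sum_range_succ, tm_even, tm_odd]
        push_cast; ring
    rw [pow_succ, mul_comm, e, ih, show t + 1 = 1 + t by ring, P_add]
    simp [P, X]

end Pool.Agent.KExp
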