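import Pool.Agent.MP_bd9604_nt.Levels

/-! Structure of unique expansions below the Komornik-Loreti constant. -/

namespace Pool.Agent.KExp

open Finset

def Cst (u : ℕ → ℤ) : Prop := ∃ s : ℤ, (s = 1 ∨ s = -1) ∧ ∀ i, u i = s

def UU : ℕ → (ℕ → ℤ) → Prop
  | 0, u => Cst u
  | t + 1, u => Cst u ∨ ∃ (a : ℕ) (s : ℤ) (u' : ℕ → ℤ), (s = 1 ∨ s = -1) ∧ UU t u' ∧
      (∀ i < a, u i = s) ∧ ∀ i, u (i + a) = phi u' i

lemma Cst.sg {u : ℕ → ℤ} (h : Cst u) : Sg u := by
  obtain ⟨s, hs, h⟩ := h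
  intro i; rw [h]; exact hs

lemma Cst.uu {u : ℕ → ℤ} (h : Cst u) (t : ℕ) : UU t u := by
  cases t with
  | zero => exact h
  | succ t => exact Or.inl h

lemma Cst.neg {u : ℕ → ℤ} (h : Cst u) : Cst (fun i => - u i) := by
  obtain ⟨s, hs, h⟩ := h
  exact ⟨-s, by omega, fun i => by simp [h]⟩

lemma UU.sg : ∀ {t : ℕ} {u : ℕ → ℤ}, UU t u → Sg u
  | 0, _, h => Cst.sg h
  | t + 1, u, h => by
    rcases h with h | ⟨a, s, u', hs, hu, h1, h2⟩
    · exact h.sg
    · intro i
      by_cases hi : i < a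
      · rw [h1 i hi]; exact hs
      · obtain ⟨j, rfl⟩ : ∃ j, i = j + a := ⟨i - a, by omega⟩
        rw [h2]; exact (UU.sg hu).phi j

lemma phi_neg (u : ℕ → ℤ) (i : ℕ) : phi (fun i => - u i) i = - phi u i := by
  unfold phi; split_ifs <;> rfl

lemma UU.neg : ∀ {t : ℕ} {u : ℕ → ℤ}, UU t u → UU t (fun i => - u i)
  | 0, _, h => Cst.neg h
  | t + 1, u, h => by
    rcases h with h | ⟨a, s, u', hs, hu, h1, h2⟩
    · exact Or.inl h.neg
    · exact Or.inr ⟨a, -s, _, by omega, UU.neg hu, fun i hi => by simp [h1 i hi],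
        fun i => by simp [phi_neg, h2]⟩

lemma escape {x : ℝ} (h0 : 0 < x) (h1 : x < 1) (m : ℕ) (θ : ℝ) {y : ℝ} (hu : Uq x y)
    (hy : y < R m x) : ∃ (a : ℕ) (y' : ℝ), Uq x y' ∧ y' ≤ θ ∧
      ((a = 0 ∧ y' = y) ∨ θ < P m x + X m x * y') ∧
      y = P m x * ∑ i ∈ range a, X m x ^ i + X m x ^ a * y' := by
  classical
  have hX := X_pos h0 m
  have hX1 := X_lt_one h0 h1 m
  have hR := R_eq h0 h1 m
  let f : ℕ → ℝ := fun a => R m x - (R m x - y) / X m x ^ a
  have hf : ∀ a, f a = P m x + X m x * f (a + 1) := by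
    intro a
    simp only [f]
    have : X m x * ((R m x - y) / X m x ^ (a + 1)) = (R m x - y) / X m x ^ a := by
      field_simp; ring
    rw [mul_sub, this]; linarith
  have f0 : f 0 = y := by simp [f]
  have hU : ∀ a, Uq x (f a) := by
    intro a
    induction a with
    | zero => rw [f0]; exact hu
    | succ a ih =>
      exact (blk' h0 m (s := 1) (Or.inl rfl) (by rw [hf a]; simp)).uq h0 h1 ih
  have hS : ∀ a, y = P m x * ∑ i ∈ range a, X m x ^ i + X m x ^ a * f a := by
    intro a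
    induction a with
    | zero => simp [f0]
    | succ a ih => rw [sum_range_succ, ih, hf a]; ring
  have hex : ∃ a, f a ≤ θ := by
    obtain ⟨a, ha⟩ := exists_pow_lt_of_lt_one (x := (R m x - y) / (|R m x - θ| + 1))
      (by have : 0 < R m x - y := by linarith
          positivity) hX1
    refine ⟨a, ?_⟩
    simp only [f]
    have hp := pow_pos hX a
    rw [lt_div_iff₀ (by positivity)] at ha
    have : R m x - θ ≤ (R m x - y) / X m x ^ a := by
      rw [le_div_iff₀ hp]
      have := le_abs_self (R m x - θ)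
      nlinarith
    linarith
  refine ⟨Nat.find hex, f (Nat.find hex), hU _, Nat.find_spec hex, ?_, hS _⟩
  rcases Nat.eq_zero_or_pos (Nat.find hex) with h | h
  · left; exact ⟨h, by rw [h, f0]⟩
  · right
    obtain ⟨b, hb⟩ : ∃ b, Nat.find hex = b + 1 := ⟨Nat.find hex - 1, by omega⟩
    have := Nat.find_min hex (m := b) (by omega)
    rw [hb, ← hf b]; exact not_le.1 this

lemma R_eq_T {x : ℝ} (h0 : 0 < x) (h1 : x < 1) (m : ℕ) (s : ℤ) :
    P m x * T (X m x) (fun _ => s) = s * R m x := by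
  rw [T_const (X_pos h0 m).le (X_lt_one h0 h1 m)]; unfold R; ring

lemma struct_pos {x : ℝ} (h0 : 1 / 2 ≤ x) (h1 : x < 1) {n : ℕ} (hn : R (n + 1) x ≤ kap x) :
    ∀ t m : ℕ, m + t = n → ∀ y : ℝ, Uq x y → |y| ≤ R m x →
      ∃ u, UU t u ∧ y = P m x * T (X m x) u := by
  have hx0 : 0 < x := by linarith
  intro t
  induction t with
  | zero =>
    intro m hm
    have key : ∀ y : ℝ, 0 ≤ y → Uq x y → |y| ≤ R m x →
        ∃ u, UU 0 u ∧ y = P m x * T (X m x) u := by
      intro y hy0 hu hy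
      rw [abs_of_nonneg hy0] at hy
      rcases hy.eq_or_lt with h | h
      · exact ⟨fun _ => 1, ⟨1, Or.inl rfl, fun _ => rfl⟩, by rw [R_eq_T hx0 h1, h]; simp⟩
      · exfalso
        obtain ⟨a, y', hu', hle, hor, -⟩ := escape hx0 h1 m (kap x) hu h
        have ho := hu.out h0 h1
        rw [abs_of_nonneg hy0] at ho
        rcases hor with ⟨-, e⟩ | e
        · linarith
        · refine not_uq_hole h0 h1 (abs_le.2 ⟨?_, hle⟩) hu'
          have hm' : m = n := by omega
          subst hm'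
          have := R_succ hx0 h1 m
          have hX := X_pos hx0 m
          by_contra hc
          push Not at hc
          nlinarith
    intro y hu hy
    rcases le_total 0 y with h | h
    · exact key y h hu hy
    · obtain ⟨u, hu', e⟩ := key (-y) (by linarith) hu.neg (by rwa [abs_neg])
      exact ⟨_, hu'.neg, by rw [T_neg]; linarith⟩
  | succ t ih =>
    intro m hm
    have key : ∀ y : ℝ, 0 ≤ y → Uq x y → |y| ≤ R m x →
        ∃ u, UU (t + 1) u ∧ y = P m x * T (X m x) u := by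
      intro y hy0 hu hy
      rw [abs_of_nonneg hy0] at hy
      rcases hy.eq_or_lt with h | h
      · exact ⟨fun _ => 1, Or.inl ⟨1, Or.inl rfl, fun _ => rfl⟩, by rw [R_eq_T hx0 h1, h]; simp⟩
      · obtain ⟨a, y', hu', hle, hor, e⟩ := escape hx0 h1 m (R (m + 1) x) hu h
        have hX := X_pos hx0 m
        have hX1 := X_lt_one hx0 h1 m
        have hlo : -R (m + 1) x ≤ y' := by
          rcases hor with ⟨-, e⟩ | e
          · linarith [R_pos hx0 h1 (m + 1)]
          · have := R_succ hx0 h1 m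
            by_contra hc
            push Not at hc
            nlinarith
        obtain ⟨u', hu'', e'⟩ := ih (m + 1) (by omega) y' hu' (abs_le.2 ⟨hlo, hle⟩)
        let u : ℕ → ℤ := fun i => if i < a then 1 else phi u' (i - a)
        have hUU : UU (t + 1) u := Or.inr ⟨a, 1, u', Or.inl rfl, hu'', fun i hi => by simp [u, hi],
          fun i => by simp [u]⟩
        refine ⟨u, hUU, ?_⟩
        rw [T_split hX.le hX1 hUU.sg.abs_le a]
        have e1 : (fun i => u (i + a)) = phi u' := by funext i; simp [u]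
        have e2 : ∑ i ∈ range a, (u i : ℝ) * X m x ^ i = ∑ i ∈ range a, X m x ^ i := by
          refine sum_congr rfl fun i hi => ?_
          simp [u, mem_range.1 hi]
        rw [e1, e2, T_phi hX.le hX1 hu''.sg, ← X_succ, e, e', P_succ]; ring
    intro y hu hy
    rcases le_total 0 y with h | h
    · exact key y h hu hy
    · obtain ⟨u, hu', e⟩ := key (-y) (by linarith) hu.neg (by rwa [abs_neg])
      exact ⟨_, hu'.neg, by rw [T_neg]; linarith⟩

lemma top_uq {x : ℝ} (h0 : 1 / 2 ≤ x) (h1 : x < 1) {n : ℕ} (hn : R (n + 1) x ≤ kap x)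
    {y : ℝ} (hu : Uq x y) (hy : |y| ≤ R n x) : y = R n x ∨ y = - R n x := by
  have hx0 : 0 < x := by linarith
  obtain ⟨u, ⟨s, hs, h⟩, e⟩ := struct_pos h0 h1 hn 0 n rfl y hu hy
  have : u = fun _ => s := funext h
  rw [this, R_eq_T hx0 h1] at e
  rcases hs with rfl | rfl
  · left; simpa using e
  · right; simpa using e

/-- the point whose expansions correspond to the expansions of one -/
noncomputable def y1 (x : ℝ) : ℝ := (-kap x + 1) / x

lemma level_zero {x : ℝ} (h0 : 1 / 2 < x) (h1 : x < 1) (hn : R 1 x ≤ kap x) {y : ℝ}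
    (hy : |y| ≤ kap x) (ht : Term x y) : False := by
  have hx0 : 0 < x := by linarith
  have hk := kap_add_one h1
  obtain ⟨a, b⟩ := abs_le.1 hy
  have hR : 1 / (1 - x) = 1 + x * (1 / (1 - x)) := by
    have : 1 - x ≠ 0 := by linarith
    field_simp; ring
  have hpos : 0 < x * (1 / (1 - x)) := by have : 0 < 1 - x := by linarith
                                          positivity
  have b1 : |(y - 1) / x| ≤ R 0 x := by
    rw [R_zero, abs_div, abs_of_pos hx0, div_le_iff₀ hx0]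
    refine abs_le.2 ⟨by linarith, by linarith⟩
  have b2 : |(y + 1) / x| ≤ R 0 x := by
    rw [R_zero, abs_div, abs_of_pos hx0, div_le_iff₀ hx0]
    refine abs_le.2 ⟨by linarith, by linarith⟩
  have c1 := top_uq h0.le h1 (n := 0) hn ht.1 b1
  have c2 := top_uq h0.le h1 (n := 0) hn ht.2 b2
  rw [R_zero, div_eq_iff hx0.ne', div_eq_iff hx0.ne'] at c1 c2
  have hgt : 1 < x * (1 / (1 - x)) := by
    rw [mul_one_div, lt_div_iff₀ (by linarith)]; linarith
  rcases c1 with c1 | c1 <;> rcases c2 with c2 | c2 <;> nlinarith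

lemma rch_code {x : ℝ} (h0 : 0 < x) (h1 : x < 1) (m : ℕ) {w : ℕ → ℤ} (hw : Sg w) (j : ℕ) :
    Rch x (P m x * T (X m x) w) (P m x * T (X m x) (fun i => w (i + j))) := by
  induction j with
  | zero => exact Rch.refl _ _
  | succ j ih =>
    refine ih.trans (blk' h0 m (hw j) ?_)
    rw [T_step (X_pos h0 m).le (X_lt_one h0 h1 m) (hw.shift j).abs_le]
    have : (fun i => w (i + 1 + j)) = fun i => w (i + (j + 1)) := by
      funext i; congr 1; ring
    simp only [zero_add]
    rw [this]; ring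

lemma abs_code_le {x : ℝ} (h0 : 0 < x) (h1 : x < 1) (m : ℕ) {w : ℕ → ℤ} (hw : Sg w) :
    |P m x * T (X m x) w| ≤ R m x := by
  have := abs_T_le (X_pos h0 m).le (X_lt_one h0 h1 m) hw.abs_le
  rw [abs_mul, abs_of_pos (P_pos h0 h1 m)]
  have e : R m x = P m x * (((1 : ℤ) : ℝ) / (1 - X m x)) := by unfold R; push_cast; ring
  rw [e]
  exact mul_le_mul_of_nonneg_left this (P_pos h0 h1 m).le

noncomputable def ev (x : ℝ) : List ℤ → ℝ → ℝ
  | [], y => y
  | s :: w, y => s + x * ev x w y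

lemma rch_ev (x : ℝ) (y : ℝ) : ∀ w : List ℤ, (∀ s ∈ w, s = 1 ∨ s = -1) → Rch x (ev x w y) y
  | [], _ => Rch.refl _ _
  | s :: w, h => (Rch.one (h s (by simp)) rfl).trans
      (rch_ev x y w fun s hs => h s (by simp [hs]))

lemma ev_lin (x y : ℝ) : ∀ w : List ℤ, ev x w y = ev x w 0 + x ^ w.length * y
  | [] => by simp [ev]
  | s :: w => by rw [ev, ev, ev_lin x y w, List.length_cons]; ring

lemma tm_vals : tm 1 = -1 ∧ tm 2 = -1 ∧ tm 3 = 1 ∧ tm 4 = -1 ∧ tm 5 = 1 ∧ tm 6 = 1 := by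
  have h0 := tm_zero
  have h1 := tm_odd 0
  have h2 := tm_even 1
  have h3 := tm_odd 1
  have h4 := tm_even 2
  have h5 := tm_odd 2
  have h6 := tm_even 3
  norm_num at h1 h2 h3 h4 h5 h6
  omega

end Pool.Agent.KExp
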